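import Pool.Agent.H50.NC.Targets

/-!
# CN2: a path between two rungs of an even prism (helper45)
-/

set_option autoImplicit false

namespace Pool.Agent.H45.NCK

open Pool.Agent.H48.ER Pool.Agent.H50.NC

theorem Cnr_symm {V : Type} {G : SimpleGraph V} {P : Fin 3 → Set V} {i j : Fin 3} {l : ℕ}
    {d d' : V} {R : Set V} (h : Cnr G P i j l d d' R) : Cnr G P j i l d' d R := by
  obtain ⟨h1, h2, h3⟩ := h
  exact ⟨h1.rev, h2, fun r hr g hg hadj => (h3 r hr g hg hadj).symm⟩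

theorem pf_CN2 : T_CN2 := by
  intro V G a b n P i j l d d' g g' R hH hP hE hij hCnr hg hdg hg' hdg'
  obtain ⟨hPr, hev⟩ := hE
  have hdR : d ∈ R := hCnr.1.left_mem
  have hd'R : d' ∈ R := hCnr.1.right_mem
  have hdi : d ∉ P i := fun h => hCnr.2.1 d hdR ⟨i, h⟩
  have hd'j : d' ∉ P j := fun h => hCnr.2.1 d' hd'R ⟨j, h⟩
  have hCs := Cnr_symm hCnr
  have swap : (G.Adj d' (a j) ∧ G.Adj d (a i)) ∨ (G.Adj d' (b j) ∧ G.Adj d (b i)) →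
      (G.Adj d (a i) ∧ G.Adj d' (a j)) ∨ (G.Adj d (b i) ∧ G.Adj d' (b j)) := by
    rintro (⟨h1, h2⟩ | ⟨h1, h2⟩)
    · exact Or.inl ⟨h2, h1⟩
    · exact Or.inr ⟨h2, h1⟩
  rcases c_TRI V G (n i) (a i) (b i) d (P i) (hPr.ip i) hdi ⟨g, hg, hdg⟩ with
    ⟨g1, h1⟩ | ⟨g1, g2, h1⟩ | ⟨g1, g2, h1⟩
  · rcases c_TRI V G (n j) (a j) (b j) d' (P j) (hPr.ip j) hd'j ⟨g', hg', hdg'⟩ with
      ⟨g3, h3⟩ | ⟨g3, g4, h3⟩ | ⟨g3, g4, h3⟩
    · exact c_PLU V G a b n P i j l d d' g1 g3 R hH hPr hij hCnr h1 h3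
    · exact swap (c_PLA V G a b n P j i l d' d g3 g4 g1 R hH hPr hij.symm hCs h3 h1)
    · exact swap (c_PLN V G a b n P j i l d' d g3 g4 g R hH hPr hij.symm hCs h3 hg hdg)
  · rcases c_TRI V G (n j) (a j) (b j) d' (P j) (hPr.ip j) hd'j ⟨g', hg', hdg'⟩ with
      ⟨g3, h3⟩ | ⟨g3, g4, h3⟩ | ⟨g3, g4, h3⟩
    · exact c_PLA V G a b n P i j l d d' g1 g2 g3 R hH hPr hij hCnr h1 h3
    · exact c_PLB V G a b n P i j l d d' g1 g2 g3 g4 R hH hP ⟨hPr, hev⟩ hij hCnr h1 h3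
    · exact swap (c_PLN V G a b n P j i l d' d g3 g4 g R hH hPr hij.symm hCs h3 hg hdg)
  · exact c_PLN V G a b n P i j l d d' g1 g2 g' R hH hPr hij hCnr h1 hg' hdg'

end Pool.Agent.H45.NCK
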